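import Pool.Agent.R344.SP.K
import Pool.Agent.R344.SP.Digits

/-!
# Sums of digits along almost every Collatz trajectory

Let `T` be the accelerated Collatz map on the integers, `b ≥ 2` a base, `s x` the sum of the digits of
`|x|` in base `b`, and `θ` a real number such that `(b - 1) θ` is not an integer. For every modulus
`M`, every `κ < 2 / log (4 / 3)` and every `ε > 0`, all but at most `ε N` of the integers `n ≠ 0` with
`|n| ≤ N` (for `N` large) have the following property: for every `t ≤ κ log |n|` the sum over `k < t` of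
`exp (2 π i θ s (T^k n))`, with any weights of absolute value at most one which depend on `k` and on
the residue class of `T^k n` modulo `M`, is at most `ε log |n|` in absolute value.

Taking `θ = a / m` with `m` prime to `b - 1`: along almost every trajectory, in every residue class
modulo `M`, the digit sums of the terms are equidistributed modulo `m` (for instance half of the terms
have an even number of binary digits one); taking `θ` irrational: the multiples `θ s (T^k n)` are
equidistributed modulo one. Since `|T^k n|` is about `|n| (3 / 4) ^ (k / 2)` for almost all `n`, the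
range `t ≤ κ log |n|` covers the trajectories all the way down to a size `|n| ^ o(1)`.
-/

set_option autoImplicit false

namespace Pool.Agent.Results.MP_ff4775_nt.DigitSumsAlongOrbits

/-- The accelerated Collatz map on the integers. -/
def T (x : ℤ) : ℤ := if x % 2 = 0 then x / 2 else (3 * x + 1) / 2

/-- The sum of the digits of `|x|` in base `b`. -/
def digitSum (b : ℕ) (x : ℤ) : ℕ := (Nat.digits b x.natAbs).sum

theorem result (b : ℕ) (hb : 2 ≤ b) (θ : ℝ) (hθ : ∀ z : ℤ, ((b : ℝ) - 1) * θ ≠ z) (M : ℕ) (hM : 1 ≤ M)
    (κ ε : ℝ) (hκ : κ < 2 / Real.log (4 / 3)) (hε : 0 < ε) :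
    ∃ N₀ : ℕ, ∀ N ≥ N₀, ∀ w : ℕ → ℤ → ℂ, (∀ k x, ‖w k x‖ ≤ 1) → (∀ k x, w k (x + M) = w k x) →
      (Set.ncard {n : ℤ | n ≠ 0 ∧ |n| ≤ N ∧ ∃ t : ℕ, (t : ℝ) ≤ κ * Real.log |(n : ℝ)| ∧
        ε * Real.log |(n : ℝ)| < ‖∑ k ∈ Finset.range t, w k (T^[k] n) *
          Complex.exp (2 * Real.pi * Complex.I * θ * digitSum b (T^[k] n))‖} : ℝ) ≤ ε * N := by
  have hg : ∀ x : ℤ, Complex.exp (2 * Real.pi * Complex.I * θ * digitSum b x)
      = R344.SP.ee (θ * R344.SP.sd b x.natAbs) := by
    intro x
    unfold R344.SP.ee R344.SP.sd digitSum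
    generalize (Nat.digits b x.natAbs).sum = s
    congr 1
    push_cast; ring
  refine R344.SP.both_signs (T := T) (fun _ => rfl) hκ (g := fun x =>
    Complex.exp (2 * Real.pi * Complex.I * θ * digitSum b x)) (fun x => ?_) (M := M) (fun d hd => ?_) hε
  · rw [hg, R344.SP.ee_norm]
  · have h1 := R344.SP.locC_of_nat hd hM (f := fun n => R344.SP.ee (θ * R344.SP.sd b n))
      (fun n => (R344.SP.ee_norm _).le) (fun q hq η hη => R344.SP.digits_ap hb hθ hq hη)
    simp only [hg]
    exact h1

end Pool.Agent.Results.MP_ff4775_nt.DigitSumsAlongOrbits
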