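import Pool.Agent.R468.MG.L

/-!
MERGING WITH A DIVERGENT TRAJECTORY: THE LOCAL LIMIT LAW OF THE TIME DIFFERENCES.

Author: helper468. Uses the harmonic relation of the level sets (Pool/Agent/R468/GL, MG,
Pool/Agent/H499R2/LT) and Poisson summation (Pool/Agent/R468/MF).
-/

set_option autoImplicit false

namespace Pool.Agent.Results.MP_ff4775_nt.MergingTimes

open Filter Topology

/-- The 3x+1 map on the integers. -/
def T (x : ℤ) : ℤ := if x % 2 = 0 then x / 2 else (3 * x + 1) / 2

/-- the trajectory of `n₀` is divergent -/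
def Divergent (n₀ : ℤ) : Prop := Tendsto (fun k => |T^[k] n₀|) atTop atTop

/-- the trajectory of `m` merges with the trajectory of `n₀`, with the time difference `j`:
`T^a m = T^b n₀` for some `a, b ≥ 0` with `a - b = j` -/
def Merges (n₀ j m : ℤ) : Prop := ∃ a b : ℕ, (a : ℤ) - b = j ∧ T^[a] m = T^[b] n₀

/-- the number of the integers `m`, `|m| ≤ x`, whose trajectory merges with that of `n₀` with the time
difference `j` -/
noncomputable def N (n₀ : ℤ) (x : ℝ) (j : ℤ) : ℕ := {m : ℤ | |(m : ℝ)| ≤ x ∧ Merges n₀ j m}.ncard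

/-- the number of the `r`-tuples of integers of absolute value at most `x` whose trajectories merge, at
one and the same time, with one another and with the trajectory of `n₀` -/
noncomputable def Tup (n₀ : ℤ) (r : ℕ) (x : ℝ) : ℕ :=
  {w : Fin r → ℤ | (∀ i, |(w i : ℝ)| ≤ x) ∧ ∃ k l : ℕ, ∀ i, T^[k] (w i) = T^[l] n₀}.ncard

/-- `1 / X` times the number of the integers `m`, `|m| ≤ X`, with `P m` tends to `δ` -/
def HasDensity (P : ℤ → Prop) (δ : ℝ) : Prop :=
  Tendsto (fun X : ℕ => ({m : ℤ | |(m : ℝ)| ≤ X ∧ P m}.ncard : ℝ) / X) atTop (𝓝 δ)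

/-- the constant of the mean value -/
noncomputable def μ : ℝ := 2 / Real.log (4 / 3)

/-- the constant of the variance -/
noncomputable def σ2 : ℝ := 2 * Real.log 3 ^ 2 / Real.log (4 / 3) ^ 3

/-- the number `√(2 π σ2 log x)` -/
noncomputable def s (x : ℝ) : ℝ := Real.sqrt (2 * Real.pi * (σ2 * Real.log x))

/-- the value at `j` of the density of the normal distribution of mean `μ log x` and variance
`σ2 log x` -/
noncomputable def g (x : ℝ) (j : ℤ) : ℝ :=
  Real.exp (-(((j : ℝ) - μ * Real.log x) ^ 2 / (2 * (σ2 * Real.log x)))) / s x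

/-- a trajectory tending to infinity is injective -/
theorem injective_of_tendsto {n : ℤ} (h : Tendsto (fun k => |T^[k] n|) atTop atTop) :
    Function.Injective (fun k => T^[k] n) := by
  have key : ∀ i j : ℕ, i < j → T^[i] n = T^[j] n → False := by
    intro i j hij he
    -- eventually periodic, hence bounded
    have hper : ∀ m : ℕ, T^[i + m * (j - i)] n = T^[i] n := by
      intro m
      induction m with
      | zero => simp
      | succ m ih =>
        have e : i + (m + 1) * (j - i) = (j - i) + (i + m * (j - i)) := by ring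
        rw [e, Function.iterate_add_apply, ih, ← Function.iterate_add_apply,
          Nat.sub_add_cancel hij.le, ← he]
    have h1 := (tendsto_atTop.1 h) (|T^[i] n| + 1)
    obtain ⟨K, hK⟩ := eventually_atTop.1 h1
    have h2 := hK (i + K * (j - i)) (by
      have : 1 ≤ j - i := by omega
      nlinarith)
    rw [hper K] at h2
    linarith
  intro i j he
  by_contra hne
  rcases lt_or_gt_of_ne hne with h1 | h1
  · exact key i j h1 he
  · exact key j i h1 he.symm

/-- MERGING WITH A DIVERGENT TRAJECTORY. Suppose that the trajectory of `n₀` is divergent. There are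
`δ`, a function `Ψ` and `M` such that

* `0 < δ < 1`, and the integers whose trajectory merges with that of `n₀` (they have the sign of `n₀`)
  have density `δ` among the integers of this sign;
* `Ψ` is continuous, has period one, lies between `δ (log 3)/2` and `δ (3 log 3)/2`, and its mean is
  `δ`; its maximum is `M`, and `δ ≤ M`;
* LOCAL LIMIT LAW: the number of the integers `m`, `|m| ≤ x`, that merge with the time difference `j` is
  `x g(x, j) (Ψ (log_3 (x / 2^j)) + o(1))`, uniformly for `|j - μ log x| ≤ K √(log x)`;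
* this number is at most `A x / √(log x)` for all `j` and `x ≥ 2`, for some `A`;
* the largest of these numbers, over all `j`, is `(M + o(1)) x / √(2 π σ2 log x)`, a number of this size
  is taken at some `j = μ log x + o(√(log x))`, and all most frequent time differences `j` satisfy
  `j = μ log x + o(√(log x))`;
* for every `r ≥ 1` the number of the `r`-tuples of integers of absolute value at most `x` whose
  trajectories merge at one and the same time with one another and with the trajectory of `n₀` is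
  asymptotic to `c_r x^r / (2 π σ2 log x)^((r-1)/2)`, with `c_r = (1 / √r) ∫ Ψ^r`. -/
theorem result (n₀ : ℤ) (hdiv : Divergent n₀) : ∃ (δ : ℝ) (Ψ : ℝ → ℝ) (M : ℝ), 0 < δ ∧ δ < 1 ∧
    HasDensity (fun m => ∃ j, Merges n₀ j m) δ ∧
    Continuous Ψ ∧ (∀ u : ℝ, Ψ (u + 1) = Ψ u) ∧
    (∀ u : ℝ, δ * (Real.log 3 / 2) ≤ Ψ u ∧ Ψ u ≤ δ * (3 * Real.log 3 / 2)) ∧
    (∫ u in (0 : ℝ)..1, Ψ u = δ) ∧ (∀ u : ℝ, Ψ u ≤ M) ∧ (∃ u : ℝ, Ψ u = M) ∧ δ ≤ M ∧
    (∀ K ε : ℝ, 0 < ε → ∃ X₀ : ℝ, ∀ x : ℝ, X₀ ≤ x → ∀ j : ℤ,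
      |(j : ℝ) - μ * Real.log x| ≤ K * Real.sqrt (Real.log x) →
      |(N n₀ x j : ℝ) / (x * g x j) - Ψ (Real.logb 3 (x / 2 ^ j))| ≤ ε) ∧
    (∃ A : ℝ, 0 < A ∧ ∀ x : ℝ, 2 ≤ x → ∀ j : ℤ, (N n₀ x j : ℝ) ≤ A * x / Real.sqrt (Real.log x)) ∧
    (∀ ε : ℝ, 0 < ε → ∃ X₀ : ℝ, ∀ x : ℝ, X₀ ≤ x →
      (∀ j : ℤ, (N n₀ x j : ℝ) ≤ (M + ε) * x / s x) ∧
      (∃ j : ℤ, |(j : ℝ) - μ * Real.log x| ≤ ε * Real.sqrt (Real.log x) ∧
        (M - ε) * x / s x ≤ (N n₀ x j : ℝ)) ∧
      ∀ j : ℤ, (∀ i : ℤ, N n₀ x i ≤ N n₀ x j) → |(j : ℝ) - μ * Real.log x| ≤ ε * Real.sqrt (Real.log x)) ∧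
    (∀ r : ℕ, 1 ≤ r → Tendsto (fun x : ℝ => (Tup n₀ r x : ℝ) * (s x ^ (r - 1) / x ^ r)) atTop
      (𝓝 (1 / Real.sqrt r * ∫ u in (0 : ℝ)..1, Ψ u ^ r))) := by
  exact Pool.Agent.R468.MG.merge_T (injective_of_tendsto hdiv)

end Pool.Agent.Results.MP_ff4775_nt.MergingTimes
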