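import Mathlib
import Pool.Agent.R344.LS.AF

/-!
# Divergent trajectories and the reciprocal mass of the trees over the cycles

Let `T` be the `3x+1` map on the integers. For a finite set `Z` of integers let the level `k` over `Z`
be the set of the integers `x ≠ 0` whose trajectory meets `Z` for the first time at time `k`, and let
its mass be the sum of `1 / |x|`. Take for `Z` the set of the nonzero terms of all the cycles which are
reached from the interval `[-y, y]`. For each `y` the masses of the levels over this set converge to a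
limit `L y` as `k → ∞`, and inside the levels the mass is distributed over the numbers of odd terms
as in the binomial law. The function `L` is nondecreasing, its limit is
`log (4/3) (1 - (d₁ + d₂) / 2)`, where `d₁` and `d₂` are the natural densities of the divergent positive
and negative integers, and it is within `O((log y)^(-B))` of this limit for every `B`. Hence no
integer has a divergent trajectory if and only if `L y → log (4/3)`.
-/

set_option autoImplicit false

open Filter Topology

namespace Pool.Agent.Results.MP_ff4775_nt.ReciprocalMassOfCycles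

/-- The `3x+1` map on the integers. -/
def T (x : ℤ) : ℤ := if x % 2 = 0 then x / 2 else (3 * x + 1) / 2

/-- The trajectory of `n` is divergent. -/
def Divergent (n : ℤ) : Prop := Tendsto (fun k : ℕ => |T^[k] n|) atTop atTop

/-- The nonzero integers `x` which lie in a cycle and in the trajectory of some integer in
`[-y, y]`. -/
def cycleTerms (y : ℕ) : Set ℤ :=
  {x : ℤ | x ≠ 0 ∧ (∃ j : ℕ, 1 ≤ j ∧ T^[j] x = x) ∧ ∃ m : ℤ, |m| ≤ y ∧ ∃ k : ℕ, T^[k] m = x}

/-- The level `k` over `Z`: the `x ≠ 0` whose trajectory meets `Z` for the first time at time `k`. -/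
def level (Z : Set ℤ) (k : ℕ) : Set ℤ := {x : ℤ | x ≠ 0 ∧ T^[k] x ∈ Z ∧ ∀ i < k, T^[i] x ∉ Z}

/-- The number of odd terms among `x, T x, ..., T^(k-1) x`. -/
def odds (k : ℕ) (x : ℤ) : ℕ := ((Finset.range k).filter fun i => T^[i] x % 2 = 1).card

/-- The sum of `1 / |x|` over the `x` in `A`. -/
noncomputable def mass (A : Set ℤ) : ℝ := ∑' x : A, (1 : ℝ) / |((x : ℤ) : ℝ)|

/-- Among the integers of sign `s` (`s = 1` or `s = -1`) those in `A` have the natural
density `δ`. -/
def HasDensity (s : ℤ) (A : Set ℤ) (δ : ℝ) : Prop :=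
  Tendsto (fun N : ℕ => ({n : ℤ | 0 < s * n ∧ s * n ≤ N ∧ n ∈ A}.ncard : ℝ) / N) atTop (𝓝 δ)

/-- The positive (negative) divergent integers have a natural density `d₁` (`d₂`), which is zero exactly
when there are none. There is a nondecreasing function `L` such that for every `y`: the set
`cycleTerms y` is finite, the masses of the levels over it are finite and tend to `L y`, and the sum
over `o ≤ k` of the distances between the mass of the members of the level `k` with `o` odd terms
and `L y * choose k o / 2 ^ k` tends to `0`. For every `B` one has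
`0 ≤ log (4/3) (1 - (d₁ + d₂)/2) - L y ≤ K / (log y)^B` for all `y ≥ 2`, with some `K`; and no integer has
a divergent trajectory if and only if `L y` tends to `log (4/3)` as `y → ∞`. -/
theorem result : ∃ d₁ d₂ : ℝ, HasDensity 1 {n | Divergent n} d₁ ∧ HasDensity (-1) {n | Divergent n} d₂ ∧
    (d₁ = 0 ↔ ∀ n : ℤ, 0 < n → ¬ Divergent n) ∧ (d₂ = 0 ↔ ∀ n : ℤ, n < 0 → ¬ Divergent n) ∧
    ∃ L : ℕ → ℝ, Monotone L ∧
      (∀ y : ℕ, (cycleTerms y).Finite ∧
        (∀ k : ℕ, Summable (fun x : level (cycleTerms y) k => (1 : ℝ) / |((x : ℤ) : ℝ)|)) ∧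
        Tendsto (fun k : ℕ => mass (level (cycleTerms y) k)) atTop (𝓝 (L y)) ∧
        Tendsto (fun k : ℕ => ∑ o ∈ Finset.range (k + 1),
          |mass {x : ℤ | x ∈ level (cycleTerms y) k ∧ odds k x = o} - L y * ((k.choose o : ℝ) / 2 ^ k)|)
          atTop (𝓝 0)) ∧
      (∀ B : ℕ, ∃ K : ℝ, 0 < K ∧ ∀ y : ℕ, 2 ≤ y →
        0 ≤ Real.log (4 / 3) * (1 - (d₁ + d₂) / 2) - L y ∧
        Real.log (4 / 3) * (1 - (d₁ + d₂) / 2) - L y ≤ K / Real.log y ^ B) ∧
      ((∀ n : ℤ, ¬ Divergent n) ↔ Tendsto L atTop (𝓝 (Real.log (4 / 3)))) := by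
  obtain ⟨d₁, d₂, _, _, h1, h2, h3, h4, L, hL, h5, h6, h7⟩ := Pool.Agent.R344.LS.div_main
  refine ⟨d₁, d₂, Pool.Agent.H499R2.ND.HD_ncard (Or.inl rfl) h1,
    Pool.Agent.H499R2.ND.HD_ncard (Or.inr rfl) h2, h3, h4, L, hL, fun y => ?_, h6, h7⟩
  obtain ⟨g1, g2, g3⟩ := h5 y
  have e : ∀ k, level (cycleTerms y) k =
      Pool.Agent.R344.LS.LZ 1 (Pool.Agent.R344.LS.Zy_fin y).toFinset k := by
    intro k
    ext x
    simp only [level, Pool.Agent.R344.LS.LZ, Pool.Agent.R344.LS.FH, Set.mem_ofPred_eq,
      Set.Finite.mem_toFinset]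
    rfl
  refine ⟨Pool.Agent.R344.LS.Zy_fin y, ?_, ?_, ?_⟩
  · intro k
    rw [e]
    exact g1 k
  · simp only [e]
    exact g2
  · refine g3.congr fun k => Finset.sum_congr rfl fun o _ => ?_
    have e2 : {x : ℤ | x ∈ level (cycleTerms y) k ∧ odds k x = o} =
        {x : ℤ | x ≠ 0 ∧ (Pool.Agent.R344.LS.FH 1 (Pool.Agent.R344.LS.Zy_fin y).toFinset k x ∧
          Pool.Agent.H499R2.LT.od 1 k x = o)} := by
      ext x
      rw [e]
      simp only [Pool.Agent.R344.LS.LZ, Set.mem_ofPred_eq, and_assoc]
      rw [Pool.Agent.R344.LS.od_card, Nat.cast_inj]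
      rfl
    unfold mass
    rw [e2]

end Pool.Agent.Results.MP_ff4775_nt.ReciprocalMassOfCycles
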