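import Mathlib
import Pool.Agent.R484.CA2
import Pool.Agent.H319R2.GSparse

set_option autoImplicit false

/-!
# Divergent trajectories of the 3x+1 map in arithmetic progressions

A trajectory (divergent or not) has few elements, with a power saving which does not depend on the
trajectory, not only in all intervals but in all finite sets which are not too thin and whose elements
are spread over the residue classes modulo the power of two next to their number; for example in all
arithmetic progressions with `n` terms and any odd difference up to `n ^ 0.259`, or any difference up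
to `n ^ 0.163`. The progressions may be anywhere on the line.

Method. Modulo `2 ^ k` the parities of the first `k` iterates determine the class, so that few elements
have more than `θ k` odd iterates, for every `θ > 1 / 2`; up to the first repetition the `k`-th iterate
is injective on the trajectory apart from `k` elements, and it maps the other elements into about `k`
intervals which are shorter by the factor `3 ^ θ / 2`, and these contain few elements of the
trajectory by the theorem on intervals.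
-/

namespace Pool.Agent.Results.MP_ff4775_nt.TrajectoriesInProgressions

open Filter

/-- The 3x+1 map on the integers. -/
def T (x : ℤ) : ℤ := if x % 2 = 0 then x / 2 else (3 * x + 1) / 2

/-- `z` is an element of the trajectory of `x`. -/
def OnTrajectory (x z : ℤ) : Prop := ∃ i : ℕ, T^[i] x = z

/-- The base-two binary entropy of `θ`. -/
noncomputable def h (θ : ℝ) : ℝ := Real.binEntropy θ / Real.log 2

/-- The base-two binary entropy `0.94995...` of `log 2 / log 3`. -/
noncomputable def β : ℝ := h (Real.log 2 / Real.log 3)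

/-- the number of the `j` in `{0, ..., n - 1}` for which `a + q j` is an element of the trajectory of `x` -/
noncomputable def count (x : ℤ) (n : ℕ) (a q : ℤ) : ℕ := {j : ℕ | j < n ∧ OnTrajectory x (a + q * j)}.ncard

theorem tame (x : ℤ) (X : Finset ℤ) (hX : ∀ z ∈ X, OnTrajectory x z) :
    ∃ S : Set ℤ, Pool.Agent.H319R2.Tame S ∧ ∀ z ∈ X, z ∈ S := by
  obtain ⟨r, hinj, hr⟩ := Pool.Agent.H319R2.G.finite_subset_path T x X hX
  refine ⟨_, Pool.Agent.H319R2.tame_path x r hinj, fun z hz => ?_⟩
  obtain ⟨i, hi, he⟩ := hr z hz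
  exact ⟨i, hi, he⟩

theorem count_le {x : ℤ} {n : ℕ} {a q : ℤ} (hq : q ≠ 0) {B : ℝ}
    (h : ∀ X : Finset ℤ, (∀ z ∈ X, OnTrajectory x z ∧
      ∃ j : ℕ, j < n ∧ z = a + q * j) → (X.card : ℝ) ≤ B) : (count x n a q : ℝ) ≤ B := by
  classical
  have e : {j : ℕ | j < n ∧ OnTrajectory x (a + q * j)} =
      (((Finset.range n).filter fun j : ℕ => OnTrajectory x (a + q * j) : Finset ℕ) : Set ℕ) := by
    ext j; simp
  unfold count
  rw [e, Set.ncard_coe_finset]
  rw [← Finset.card_image_of_injective (f := fun j : ℕ => a + q * (j : ℤ)) _ (by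
    intro i j hij
    have h1 : q * (i : ℤ) = q * (j : ℤ) := by simpa using hij
    exact_mod_cast mul_left_cancel₀ hq h1)]
  apply h
  intro z hz
  obtain ⟨j, hj, rfl⟩ := Finset.mem_image.1 hz
  obtain ⟨h1, h2⟩ := Finset.mem_filter.1 hj
  exact ⟨h2, j, Finset.mem_range.1 h1, rfl⟩

/-- (1) For `1 / 2 < θ < 1` and `η > β` there is `C` such that for all integers `x` (for example with a
divergent trajectory) and all `k`, `m` and `R ≥ 2 ^ k`, every finite set `X` of elements of the trajectory
of `x` which lies in an interval `[y - R, y + R]` and has at most `m` elements in each residue class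
modulo `2 ^ k` has at most `m 2 ^ (k h(θ)) + C (R (3 ^ θ / 2) ^ k) ^ η` elements.
(2) For every `κ < 1 / β - log 3 / (2 log 2)` there are `δ > 0` and `C` such that for all `x`, among the
`n` terms of every arithmetic progression with difference `2 ^ s r`, where `r` is odd and
`3 ^ s |r| ≤ n ^ κ`, at most `C n ^ (1 - δ)` are elements of the trajectory of `x`.
(3) For every `κ < log 2 / (β log 3) - 1 / 2` there are `δ > 0` and `C` such that for all `x`, among the `n`
terms of every arithmetic progression with difference `q`, where `1 ≤ |q| ≤ n ^ κ`, at most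
`C n ^ (1 - δ)` are elements of the trajectory of `x`.
(4) The bounds for `κ` are larger than `0.259` and `0.163`. -/
theorem result :
    (∀ θ η : ℝ, 1 / 2 < θ → θ < 1 → β < η → ∃ C : ℝ, ∀ (x : ℤ) (k m : ℕ) (y R : ℝ) (X : Finset ℤ),
      (2 : ℝ) ^ k ≤ R → (∀ z ∈ X, OnTrajectory x z ∧ |(z : ℝ) - y| ≤ R) →
      (∀ r : ℤ, (X.filter fun z => (2 : ℤ) ^ k ∣ z - r).card ≤ m) →
      (X.card : ℝ) ≤ m * 2 ^ (k * h θ) + C * (R * (3 ^ θ / 2) ^ k) ^ η) ∧
    (∀ κ : ℝ, κ < 1 / β - Real.log 3 / (2 * Real.log 2) → ∃ δ C : ℝ, 0 < δ ∧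
      ∀ (x : ℤ) (n s : ℕ) (a r : ℤ), 1 ≤ n → Odd r → 3 ^ s * |(r : ℝ)| ≤ (n : ℝ) ^ κ →
        (count x n a (2 ^ s * r) : ℝ) ≤ C * (n : ℝ) ^ (1 - δ)) ∧
    (∀ κ : ℝ, κ < Real.log 2 / (β * Real.log 3) - 1 / 2 → ∃ δ C : ℝ, 0 < δ ∧
      ∀ (x : ℤ) (n : ℕ) (a q : ℤ), 1 ≤ n → q ≠ 0 → |(q : ℝ)| ≤ (n : ℝ) ^ κ →
        (count x n a q : ℝ) ≤ C * (n : ℝ) ^ (1 - δ)) ∧
    0.259 < 1 / β - Real.log 3 / (2 * Real.log 2) ∧
    0.163 < Real.log 2 / (β * Real.log 3) - 1 / 2 := by
  have hl2 : 0 < Real.log 2 := Real.log_pos (by norm_num)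
  have hβ : β = Pool.Agent.H319R2.beta := rfl
  have hβ0 : 0 < β := by rw [hβ]; exact lt_trans (by norm_num) Pool.Agent.H319R2.beta_gt
  refine ⟨?_, ?_, ?_, Pool.Agent.R484.CA.numeric⟩
  · intro θ η h1 h2 hη
    obtain ⟨C, -, hC⟩ := Pool.Agent.R484.CA.general θ η h1 h2 hη (hβ0.trans hη)
    refine ⟨C, fun x k m y R X hR hX hm => ?_⟩
    have e : (2 : ℝ) ^ (k * h θ) = Real.exp (k * Real.binEntropy θ) := by
      rw [Real.rpow_def_of_pos (by norm_num), h]
      congr 1; field_simp
    rw [e]
    obtain ⟨S, hS, hXS⟩ := tame x X fun z hz => (hX z hz).1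
    exact hC S hS k m y R X hR (fun z hz => ⟨hXS z hz, (hX z hz).2⟩) hm
  · intro κ hκ
    obtain ⟨δ, hδ, C, -, hC⟩ := Pool.Agent.R484.CA.ap κ hκ
    refine ⟨δ, C, hδ, fun x n s a r hn hr hrn => count_le ?_ ?_⟩
    · intro h0
      rcases mul_eq_zero.1 h0 with h | h
      · exact absurd h (by positivity)
      · rw [h] at hr; exact absurd hr (by decide)
    · intro X hX
      obtain ⟨S, hS, hXS⟩ := tame x X fun z hz => (hX z hz).1
      exact hC S hS n s a r hn (Int.odd_iff.1 hr) hrn X fun z hz => ⟨hXS z hz, (hX z hz).2⟩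
  · intro κ hκ
    obtain ⟨δ, hδ, C, -, hC⟩ := Pool.Agent.R484.CA.ap_all κ hκ
    refine ⟨δ, C, hδ, fun x n a q hn hq hqn => count_le hq ?_⟩
    intro X hX
    obtain ⟨S, hS, hXS⟩ := tame x X fun z hz => (hX z hz).1
    exact hC S hS n a q hn hq hqn X fun z hz => ⟨hXS z hz, (hX z hz).2⟩

end Pool.Agent.Results.MP_ff4775_nt.TrajectoriesInProgressions
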